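import Pool.Agent.Lib.MP_b879c5_an.WQ.Spec

/-!
# MP_b879c5_an, module BDU: bounds for the space derivatives of a solution on compact time intervals
-/

set_option autoImplicit false

namespace Pool.Agent.Lib.MPb879c5.WQ

open Set Filter MeasureTheory Topology
open Pool.Agent.Lib.MP_b879c5_an
open Pool.Agent.Lib.MPb879c5.WP
open scoped ContDiff

namespace BDUM

theorem sm_iter {T : ℝ} {U : ℝ × ℝ → ℝ} (h : Sm T U) : ∀ k : ℕ, Sm T (Dx^[k] U)
  | 0 => h
  | k + 1 => by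
    rw [Function.iterate_succ_apply']
    exact (sm_iter h k).dx

theorem slice {T : ℝ} {U : ℝ × ℝ → ℝ} (h : Sm T U) {t : ℝ} (ht : t ∈ Ioo 0 T) (k : ℕ) :
    iteratedDeriv k (fun y => U (t, y)) = fun x => (Dx^[k] U) (t, x) := by
  induction k with
  | zero =>
    rw [iteratedDeriv_zero]
    rfl
  | succ k ih =>
    rw [iteratedDeriv_succ, ih]
    funext x
    rw [((sm_iter h k).hasDerivAt_x ht x).deriv, Function.iterate_succ_apply']

theorem per_iter {f : ℝ → ℝ} (h : ∀ x, f (x + 2 * Real.pi) = f x) (k : ℕ) (x : ℝ) :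
    iteratedDeriv k f (x + 2 * Real.pi) = iteratedDeriv k f x := by
  have h1 : (fun z => f (z + 2 * Real.pi)) = f := funext h
  have h2 := congrFun (iteratedDeriv_comp_add_const k f (2 * Real.pi)) x
  rw [h1] at h2
  exact h2.symm

theorem bound_k {T : ℝ} {U : ℝ × ℝ → ℝ} {a b : ℝ} (h : Sol T U) (ha : 0 < a) (hb : b < T) (k : ℕ) :
    ∃ A, ∀ t ∈ Icc a b, ∀ x, |iteratedDeriv k (fun y => U (t, y)) x| ≤ A := by
  have hsub : Icc a b ×ˢ Icc (0 : ℝ) (2 * Real.pi) ⊆ Om T := by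
    rintro ⟨t, x⟩ ⟨ht, _⟩
    exact mem_Om.2 ⟨lt_of_lt_of_le ha ht.1, lt_of_le_of_lt ht.2 hb⟩
  have hc : ContinuousOn (Dx^[k] U) (Icc a b ×ˢ Icc (0 : ℝ) (2 * Real.pi)) :=
    (sm_iter h.sm k).continuousOn.mono hsub
  obtain ⟨A, hA⟩ := (isCompact_Icc.prod isCompact_Icc).exists_bound_of_continuousOn hc
  refine ⟨A, fun t ht x => ?_⟩
  have ht' : t ∈ Ioo 0 T := ⟨lt_of_lt_of_le ha ht.1, lt_of_le_of_lt ht.2 hb⟩
  have hper : Function.Periodic (iteratedDeriv k (fun y => U (t, y))) (2 * Real.pi) := fun x =>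
    per_iter (fun x => h.per t ht' x) k x
  obtain ⟨y, hy, hxy⟩ := hper.exists_mem_Ico₀ Real.two_pi_pos x
  rw [hxy, slice h.sm ht' k]
  exact hA (t, y) ⟨ht, hy.1, hy.2.le⟩

end BDUM

theorem specBDU : SpecBDU := by
  intro T U a b h ha hb
  choose A hA using fun k => BDUM.bound_k h ha hb k
  refine ⟨∑ k ∈ Finset.range 6, |A k|, fun t ht k hk x => ?_⟩
  refine (hA k t ht x).trans ((le_abs_self _).trans ?_)
  exact Finset.single_le_sum (f := fun k => |A k|) (fun i _ => abs_nonneg _)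
    (Finset.mem_range.2 (by omega))

end Pool.Agent.Lib.MPb879c5.WQ
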