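import Pool.Agent.Lib.MP_b879c5_an.WQ.Spec
import Pool.Agent.Lib.MP_b879c5_an.WP.GEN

/-! # Module CDP: continuous dependence -/

set_option autoImplicit false

namespace Pool.Agent.Lib.MPb879c5.WQ

open Set Filter MeasureTheory Topology
open Pool.Agent.Lib.MP_b879c5_an
open Pool.Agent.Lib.MPb879c5.WP
open scoped ContDiff

noncomputable section

namespace CDPM

lemma slice {T : ℝ} {U : ℝ × ℝ → ℝ} (h : Sol T U) {t : ℝ} (ht : t ∈ Ioo 0 T) :
    SP (fun x => U (t, x)) := by
  constructor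
  · have h1 : ContDiffOn ℝ ∞ (fun x : ℝ => U (t, x)) univ := by
      have h2 : ContDiffOn ℝ ∞ (fun x : ℝ => ((t, x) : ℝ × ℝ)) univ :=
        (contDiff_const.prodMk contDiff_id).contDiffOn
      exact h.sm.comp h2 (fun x _ => mem_Om.mpr ht)
    exact contDiffOn_univ.1 h1
  · intro x
    exact h.per t ht x

lemma SPd {T : ℝ} {U V : ℝ × ℝ → ℝ} (hU : Sol T U) (hV : Sol T V) {t : ℝ} (ht : t ∈ Ioo 0 T) :
    SP (df U V t) := by
  refine ⟨(slice hV ht).sm.sub (slice hU ht).sm, fun x => ?_⟩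
  unfold df
  rw [hV.per t ht, hU.per t ht]

lemma SP_deriv {g : ℝ → ℝ} (hg : SP g) : SP (deriv g) := by
  have := GENM.SP_iter hg 1
  rwa [iteratedDeriv_one] at this

lemma SP_Li {g d : ℝ → ℝ} (hg : SP g) (hd : SP d) : SP (Li g d) := by
  have h1 := SP_deriv hg
  have h2 := SP_deriv hd
  refine ⟨?_, ?_⟩
  · have : ContDiff ℝ ∞ (fun x => 2 * deriv g x * deriv d x + 2 * g x * d x) :=
      ((contDiff_const.mul h1.sm).mul h2.sm).add ((contDiff_const.mul hg.sm).mul hd.sm)
    exact this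
  · intro x
    unfold Li
    rw [h1.per, h2.per, hg.per, hd.per]

lemma En_nonneg (k : ℕ) (f : ℝ → ℝ) : 0 ≤ En k f :=
  intervalIntegral.integral_nonneg (by positivity) (fun x _ => sq_nonneg _)

lemma split {f F G : ℝ → ℝ} (hf : SP f) (hF : SP F) (hG : SP G) (k : ℕ) :
    ∫ x in (0)..(2 * Real.pi), iteratedDeriv k f x * iteratedDeriv k (fun y => F y + G y) x =
      (∫ x in (0)..(2 * Real.pi), iteratedDeriv k f x * iteratedDeriv k F x) +
        ∫ x in (0)..(2 * Real.pi), iteratedDeriv k f x * iteratedDeriv k G x := by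
  have i1 : IntervalIntegrable (fun x => iteratedDeriv k f x * iteratedDeriv k F x) volume 0
      (2 * Real.pi) :=
    ((GENM.sm_iter hf.sm k).continuous.mul (GENM.sm_iter hF.sm k).continuous).intervalIntegrable _ _
  have i2 : IntervalIntegrable (fun x => iteratedDeriv k f x * iteratedDeriv k G x) volume 0
      (2 * Real.pi) :=
    ((GENM.sm_iter hf.sm k).continuous.mul (GENM.sm_iter hG.sm k).continuous).intervalIntegrable _ _
  rw [← intervalIntegral.integral_add i1 i2]
  refine intervalIntegral.integral_congr fun x _ => ?_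
  have hle : ((k : ℕ) : WithTop ℕ∞) ≤ ∞ := by exact_mod_cast le_top
  have h1 : iteratedDeriv k (fun y => F y + G y) x = iteratedDeriv k F x + iteratedDeriv k G x :=
    iteratedDeriv_fun_add (hF.sm.contDiffAt.of_le hle) (hG.sm.contDiffAt.of_le hle)
  show iteratedDeriv k f x * iteratedDeriv k (fun y => F y + G y) x = _
  rw [h1]
  ring

end CDPM

open CDPM in
theorem specCDP (hDLE : SpecDLE) (hDNE : SpecDNE) (hDED : SpecDED) (hGRW : SpecGRW) : SpecCDP := by
  intro A L
  obtain ⟨CL, hCL0, hCL⟩ := hDLE A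
  obtain ⟨CN, hCN0, hCN⟩ := hDNE
  refine ⟨Real.exp (2 * (CL + CN) * |L|), Real.exp_pos _, ?_⟩
  intro T U V a b hU hV ha hab hbT hL hA hsm t ht
  have hC' : 0 ≤ 2 * (CL + CN) := by positivity
  have hmem : ∀ t ∈ Icc a b, t ∈ Ioo 0 T :=
    fun t ht => ⟨ha.trans_le ht.1, ht.2.trans_lt hbT⟩
  have h1 : ∀ t ∈ Icc a b, HasDerivAt (fun s => E2 (df U V s))
      (2 * (∫ x in (0)..(2 * Real.pi), iteratedDeriv 0 (df U V t) x *
        iteratedDeriv 0 (fun y => Fo (df U V t) y + Li (fun z => U (t, z)) (df U V t) y) x) +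
      2 * ∫ x in (0)..(2 * Real.pi), iteratedDeriv 3 (df U V t) x *
        iteratedDeriv 3 (fun y => Fo (df U V t) y + Li (fun z => U (t, z)) (df U V t) y) x) t :=
    fun t ht => (hDED T U V hU hV 0 t (hmem t ht)).add (hDED T U V hU hV 3 t (hmem t ht))
  have h2 : ∀ t ∈ Icc a b, 0 ≤ E2 (df U V t) :=
    fun t _ => add_nonneg (En_nonneg 0 _) (En_nonneg 3 _)
  have h3 : ∀ t ∈ Icc a b, E2 (df U V t) ≤ 1 →
      (2 * (∫ x in (0)..(2 * Real.pi), iteratedDeriv 0 (df U V t) x *
        iteratedDeriv 0 (fun y => Fo (df U V t) y + Li (fun z => U (t, z)) (df U V t) y) x) +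
      2 * ∫ x in (0)..(2 * Real.pi), iteratedDeriv 3 (df U V t) x *
        iteratedDeriv 3 (fun y => Fo (df U V t) y + Li (fun z => U (t, z)) (df U V t) y) x) ≤
      2 * (CL + CN) * E2 (df U V t) := by
    intro t ht hy1
    have hd := SPd hU hV (hmem t ht)
    have hg := slice hU (hmem t ht)
    have e1 := hCN (df U V t) hd hy1
    have e2 := hCL (fun z => U (t, z)) (df U V t) hg hd (hA t ht)
    rw [split hd (GENM.SP_Fo hd) (SP_Li hg hd) 0, split hd (GENM.SP_Fo hd) (SP_Li hg hd) 3]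
    simp only [iteratedDeriv_zero]
    have a1 := le_abs_self (∫ x in (0)..(2 * Real.pi), df U V t x * Fo (df U V t) x)
    have a2 := le_abs_self (∫ x in (0)..(2 * Real.pi), df U V t x *
      Li (fun z => U (t, z)) (df U V t) x)
    have a3 := le_abs_self (∫ x in (0)..(2 * Real.pi), iteratedDeriv 3 (df U V t) x *
      iteratedDeriv 3 (Fo (df U V t)) x)
    have a4 := le_abs_self (∫ x in (0)..(2 * Real.pi), iteratedDeriv 3 (df U V t) x *
      iteratedDeriv 3 (Li (fun z => U (t, z)) (df U V t)) x)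
    linarith
  have haI : a ∈ Icc a b := ⟨le_rfl, hab⟩
  have hexp : Real.exp (2 * (CL + CN) * (b - a)) ≤ Real.exp (2 * (CL + CN) * |L|) := by
    apply Real.exp_le_exp.2
    exact mul_le_mul_of_nonneg_left (hL.trans (le_abs_self L)) hC'
  have h5 : E2 (df U V a) * Real.exp (2 * (CL + CN) * (b - a)) ≤
      Real.exp (2 * (CL + CN) * |L|) * E2 (df U V a) := by
    rw [mul_comm]
    exact mul_le_mul_of_nonneg_right hexp (h2 a haI)
  exact (hGRW (fun s => E2 (df U V s)) _ a b (2 * (CL + CN)) hab hC' h1 h2 h3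
    (h5.trans_lt hsm) t ht).trans h5

end

end Pool.Agent.Lib.MPb879c5.WQ
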