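import Pool.Agent.Lib.MP_b879c5_an.WQ.Spec

/-!
# MP_b879c5_an, module DED: the energy identity for the difference (helper64)
-/

set_option autoImplicit false

namespace Pool.Agent.Lib.MPb879c5.WQ

open Set Filter MeasureTheory Topology
open Pool.Agent.Lib.MP_b879c5_an
open Pool.Agent.Lib.MPb879c5.WP
open scoped ContDiff

noncomputable section

namespace DEDM

lemma sm_it {T : ℝ} {G : ℝ × ℝ → ℝ} (h : Sm T G) (k : ℕ) : Sm T (Dx^[k] G) := by
  induction k with
  | zero => exact h
  | succ k ih =>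
    rw [Function.iterate_succ_apply']
    exact ih.dx

lemma slice {T : ℝ} {G : ℝ × ℝ → ℝ} (h : Sm T G) {t : ℝ} (ht : t ∈ Ioo 0 T) (k : ℕ) :
    iteratedDeriv k (fun y => G (t, y)) = fun x => (Dx^[k] G) (t, x) := by
  induction k with
  | zero => rw [iteratedDeriv_zero]; rfl
  | succ k ih =>
    rw [iteratedDeriv_succ, ih]
    funext x
    rw [((sm_it h k).hasDerivAt_x ht x).deriv, Function.iterate_succ_apply']

lemma comm_it {T : ℝ} {G : ℝ × ℝ → ℝ} (h : Sm T G) {t : ℝ} (ht : t ∈ Ioo 0 T) (k : ℕ) :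
    ∀ x, Dt (Dx^[k] G) (t, x) = (Dx^[k] (Dt G)) (t, x) := by
  induction k with
  | zero => intro x; rfl
  | succ k ih =>
    intro x
    rw [Function.iterate_succ_apply', Function.iterate_succ_apply', (sm_it h k).comm ht x]
    have h1 := (sm_it h k).dt.hasDerivAt_x ht x
    have h2 := (sm_it h.dt k).hasDerivAt_x ht x
    have e : (fun y => Dt (Dx^[k] G) (t, y)) = fun y => (Dx^[k] (Dt G)) (t, y) := funext ih
    rw [e] at h1
    exact h1.unique h2

lemma sub_it {T : ℝ} {U V : ℝ × ℝ → ℝ} (hU : Sm T U) (hV : Sm T V) {t : ℝ} (ht : t ∈ Ioo 0 T)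
    (hD : Sm T (fun p => V p - U p)) (k : ℕ) :
    ∀ x, (Dx^[k] (fun p => V p - U p)) (t, x) = (Dx^[k] V) (t, x) - (Dx^[k] U) (t, x) := by
  induction k with
  | zero => intro x; rfl
  | succ k ih =>
    intro x
    rw [Function.iterate_succ_apply', Function.iterate_succ_apply', Function.iterate_succ_apply']
    have h1 := (sm_it hD k).hasDerivAt_x ht x
    have h2 := ((sm_it hV k).hasDerivAt_x ht x).sub ((sm_it hU k).hasDerivAt_x ht x)
    have e : (fun y => (Dx^[k] (fun p => V p - U p)) (t, y)) =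
        (fun y => (Dx^[k] V) (t, y)) - (fun y => (Dx^[k] U) (t, y)) := by
      funext y
      rw [Pi.sub_apply]
      exact ih y
    rw [e] at h1
    exact h1.unique h2

/-- the equation of the difference -/
lemma dt_diff {T : ℝ} {U V : ℝ × ℝ → ℝ} (hU : Sol T U) (hV : Sol T V) {t : ℝ}
    (ht : t ∈ Ioo 0 T) (hD : Sm T (fun p => V p - U p)) (y : ℝ) :
    Dt (fun p => V p - U p) (t, y) =
      Fo (df U V t) y + Li (fun z => U (t, z)) (df U V t) y := by
  have h1 := hD.hasDerivAt_t ht y
  have h2 := (hV.sm.hasDerivAt_t ht y).sub (hU.sm.hasDerivAt_t ht y)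
  have h3 : Dt (fun p => V p - U p) (t, y) = Dt V (t, y) - Dt U (t, y) := h1.unique h2
  have e3 : iteratedDeriv 3 (df U V t) y = Dx (Dx (Dx V)) (t, y) - Dx (Dx (Dx U)) (t, y) := by
    have h4 := congrFun (slice hD ht 3) y
    have h5 := sub_it hU.sm hV.sm ht hD 3 y
    exact h4.trans h5
  have e1 : deriv (df U V t) y = Dx V (t, y) - Dx U (t, y) := by
    have h4 := ((hV.sm.hasDerivAt_x ht y).sub (hU.sm.hasDerivAt_x ht y)).deriv
    exact h4
  have e2 : deriv (fun z => U (t, z)) y = Dx U (t, y) := (hU.sm.hasDerivAt_x ht y).deriv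
  unfold Fo Li
  rw [h3, hV.pde t ht y, hU.pde t ht y, e3, e1, e2]
  unfold df
  ring

end DEDM

open DEDM in
theorem specDED : SpecDED := by
  intro T U V hU hV k t ht
  have hD : Sm T (fun p => V p - U p) := hV.sm.sub hU.sm
  have hDk := sm_it hD k
  have hsq : Sm T (fun p => (Dx^[k] (fun p => V p - U p)) p ^ 2) := hDk.pow 2
  have h1 := hsq.hasDerivAt_integral ht
  have hev : (fun s => En k (df U V s)) =ᶠ[𝓝 t]
      fun s => ∫ x in (0)..(2 * Real.pi), (Dx^[k] (fun p => V p - U p)) (s, x) ^ 2 := by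
    filter_upwards [isOpen_Ioo.mem_nhds ht] with s hs
    unfold En
    have e : iteratedDeriv k (df U V s) = fun x => (Dx^[k] (fun p => V p - U p)) (s, x) :=
      slice hD hs k
    rw [e]
  have h2 : (∫ x in (0)..(2 * Real.pi), Dt (fun p => (Dx^[k] (fun p => V p - U p)) p ^ 2) (t, x)) =
      2 * ∫ x in (0)..(2 * Real.pi), iteratedDeriv k (df U V t) x *
        iteratedDeriv k (fun y => Fo (df U V t) y + Li (fun z => U (t, z)) (df U V t) y) x := by
    rw [← intervalIntegral.integral_const_mul]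
    apply intervalIntegral.integral_congr
    intro x _
    have ha := hsq.hasDerivAt_t ht x
    have hb := (hDk.hasDerivAt_t ht x).pow 2
    have e1 : Dt (fun p => (Dx^[k] (fun p => V p - U p)) p ^ 2) (t, x) =
        2 * (Dx^[k] (fun p => V p - U p)) (t, x) * Dt (Dx^[k] (fun p => V p - U p)) (t, x) := by
      have := ha.unique hb
      simpa using this
    have e2 : iteratedDeriv k (df U V t) x = (Dx^[k] (fun p => V p - U p)) (t, x) :=
      congrFun (slice hD ht k) x
    have e3 : (fun y => Fo (df U V t) y + Li (fun z => U (t, z)) (df U V t) y) =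
        fun y => Dt (fun p => V p - U p) (t, y) := by
      funext y
      exact (dt_diff hU hV ht hD y).symm
    have e4 : iteratedDeriv k (fun y => Dt (fun p => V p - U p) (t, y)) x =
        (Dx^[k] (Dt (fun p => V p - U p))) (t, x) := congrFun (slice hD.dt ht k) x
    simp only
    rw [e1, e2, e3, e4, comm_it hD ht k x]
    ring
  rw [h2] at h1
  exact h1.congr_of_eventuallyEq hev

end

end Pool.Agent.Lib.MPb879c5.WQ
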