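import Pool.Agent.Lib.MP_b879c5_an.WQ.Spec
import Pool.Agent.Lib.MP_b879c5_an.WP.ETS

/-!
# MP_b879c5_an, module DLE: the linear terms
-/

set_option autoImplicit false

namespace Pool.Agent.Lib.MPb879c5.WQ

open Set Filter MeasureTheory Topology
open Pool.Agent.Lib.MP_b879c5_an
open Pool.Agent.Lib.MPb879c5.WP
open scoped ContDiff

namespace DLEM

theorem tri (A a b c : ℝ) (ha : |a| ≤ A) : |a * (b * c)| ≤ A * ((b ^ 2 + c ^ 2) / 2) := by
  rw [abs_mul]
  refine mul_le_mul ha ?_ (abs_nonneg _) ((abs_nonneg a).trans ha)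
  rw [abs_le]
  constructor
  · nlinarith [sq_nonneg (b + c)]
  · nlinarith [sq_nonneg (b - c)]

theorem two (A a b : ℝ) (ha : |a| ≤ A) : |a * b ^ 2| ≤ A * b ^ 2 := by
  rw [abs_mul, abs_of_nonneg (sq_nonneg b)]
  exact mul_le_mul_of_nonneg_right ha (sq_nonneg b)

end DLEM

open DLEM ETSM in
theorem specDLE (hSOB : WP.SpecSOB) : SpecDLE := by
  intro A
  refine ⟨40 * |A|, by positivity, ?_⟩
  intro g d hg hd hgA
  obtain ⟨D, hD, hder, hper, c⟩ := derivs d hd
  obtain ⟨G, hG, hgder, hgper, cg⟩ := derivs g hg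
  have hd0 : d = D 0 := by rw [← hD 0, iteratedDeriv_zero]
  have hg0 : g = G 0 := by rw [← hG 0, iteratedDeriv_zero]
  have hGA : ∀ k ≤ 5, ∀ x, |G k x| ≤ A := by
    intro k hk x
    rw [← hG k]
    exact hgA k hk x
  have hA : 0 ≤ A := (abs_nonneg _).trans (hGA 0 (by norm_num) 0)
  rw [abs_of_nonneg hA]
  have hEn : ∀ k, En k d = ∫ x in (0)..(2 * Real.pi), D k x ^ 2 := by
    intro k
    unfold En
    rw [hD k]
  have hEnn : ∀ k, 0 ≤ En k d := by
    intro k
    rw [hEn k]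
    exact intervalIntegral.integral_nonneg (by positivity) (fun x _ => sq_nonneg _)
  obtain ⟨S, hS⟩ : ∃ S, S = E2 d := ⟨_, rfl⟩
  have hS' : S = En 0 d + En 3 d := hS
  have hE1 : En 1 d ≤ S := by
    rw [hS']
    exact (hSOB d hd 1 3 (by norm_num)).1
  have hE2 : En 2 d ≤ S := by
    rw [hS']
    exact (hSOB d hd 2 3 (by norm_num)).1
  have hE0 : En 0 d ≤ S := by
    rw [hS']
    linarith [hEnn 3]
  have hE3 : En 3 d ≤ S := by
    rw [hS']
    linarith [hEnn 0]
  have hS0 : 0 ≤ S := (hEnn 0).trans hE0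
  have hLi : Li g d = fun x => 2 * (G 1 x * D 1 x) + 2 * (G 0 x * D 0 x) := by
    funext x
    unfold Li
    rw [← iteratedDeriv_one, ← iteratedDeriv_one, hG 1, hD 1, ← hg0, ← hd0]
    ring
  have hLi3 : iteratedDeriv 3 (Li g d) = fun x =>
      2 * (G 4 x * D 1 x + 3 * (G 3 x * D 2 x) + 3 * (G 2 x * D 3 x) + G 1 x * D 4 x) +
        2 * (G 3 x * D 0 x + 3 * (G 2 x * D 1 x) + 3 * (G 1 x * D 2 x) + G 0 x * D 3 x) := by
    have d1 : deriv (fun x => 2 * (G 1 x * D 1 x) + 2 * (G 0 x * D 0 x)) =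
        fun x => 2 * (G 2 x * D 1 x + G 1 x * D 2 x) + 2 * (G 1 x * D 0 x + G 0 x * D 1 x) := by
      funext x
      have h := (((hgder 1 x).mul (hder 1 x)).const_mul 2).add
        (((hgder 0 x).mul (hder 0 x)).const_mul 2)
      exact HasDerivAt.deriv (h.congr_deriv rfl)
    have d2 : deriv (fun x => 2 * (G 2 x * D 1 x + G 1 x * D 2 x) +
          2 * (G 1 x * D 0 x + G 0 x * D 1 x)) =
        fun x => 2 * (G 3 x * D 1 x + 2 * (G 2 x * D 2 x) + G 1 x * D 3 x) +
          2 * (G 2 x * D 0 x + 2 * (G 1 x * D 1 x) + G 0 x * D 2 x) := by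
      funext x
      have h := ((((hgder 2 x).mul (hder 1 x)).add ((hgder 1 x).mul (hder 2 x))).const_mul 2).add
        ((((hgder 1 x).mul (hder 0 x)).add ((hgder 0 x).mul (hder 1 x))).const_mul 2)
      refine HasDerivAt.deriv (h.congr_deriv ?_)
      ring
    have d3 : deriv (fun x => 2 * (G 3 x * D 1 x + 2 * (G 2 x * D 2 x) + G 1 x * D 3 x) +
          2 * (G 2 x * D 0 x + 2 * (G 1 x * D 1 x) + G 0 x * D 2 x)) =
        fun x => 2 * (G 4 x * D 1 x + 3 * (G 3 x * D 2 x) + 3 * (G 2 x * D 3 x) + G 1 x * D 4 x) +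
        2 * (G 3 x * D 0 x + 3 * (G 2 x * D 1 x) + 3 * (G 1 x * D 2 x) + G 0 x * D 3 x) := by
      funext x
      have h := (((((hgder 3 x).mul (hder 1 x)).add (((hgder 2 x).mul (hder 2 x)).const_mul 2)).add
        ((hgder 1 x).mul (hder 3 x))).const_mul 2).add
        (((((hgder 2 x).mul (hder 0 x)).add (((hgder 1 x).mul (hder 1 x)).const_mul 2)).add
        ((hgder 0 x).mul (hder 2 x))).const_mul 2)
      refine HasDerivAt.deriv (h.congr_deriv ?_)
      ring
    rw [hLi, iteratedDeriv_succ, iteratedDeriv_succ, iteratedDeriv_one, d1, d2, d3]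
  have hp : ∀ k, D k (2 * Real.pi) = D k 0 := by
    intro k
    have h := hper k 0
    rwa [zero_add] at h
  have hgp : ∀ k, G k (2 * Real.pi) = G k 0 := by
    intro k
    have h := hgper k 0
    rwa [zero_add] at h
  have hq : ∀ k, IntervalIntegrable (fun x => D k x ^ 2) volume 0 (2 * Real.pi) := fun k =>
    ((c k).pow 2).intervalIntegrable _ _
  -- the first integral
  have I1 : |∫ x in (0)..(2 * Real.pi), d x * Li g d x| ≤
      ∫ x in (0)..(2 * Real.pi), A * (3 * D 0 x ^ 2 + D 1 x ^ 2) := by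
    refine est _ (fun _ => 0) (fun _ => 0)
      (fun x => 2 * (G 1 x * (D 0 x * D 1 x)) + 2 * (G 0 x * D 0 x ^ 2)) _ ?_ continuous_const
      ((continuous_const.mul ((cg 1).mul ((c 0).mul (c 1)))).add
        (continuous_const.mul ((cg 0).mul ((c 0).pow 2))))
      (continuous_const.mul ((continuous_const.mul ((c 0).pow 2)).add ((c 1).pow 2))) rfl ?_ ?_
    · intro x
      exact hasDerivAt_const x 0
    · intro x
      show d x * Li g d x = 0 + (2 * (G 1 x * (D 0 x * D 1 x)) + 2 * (G 0 x * D 0 x ^ 2))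
      rw [hLi, ← hd0]
      ring
    · intro x
      show |2 * (G 1 x * (D 0 x * D 1 x)) + 2 * (G 0 x * D 0 x ^ 2)| ≤
        A * (3 * D 0 x ^ 2 + D 1 x ^ 2)
      have h1 := abs_le.1 (tri A (G 1 x) (D 0 x) (D 1 x) (hGA 1 (by norm_num) x))
      have h2 := abs_le.1 (two A (G 0 x) (D 0 x) (hGA 0 (by norm_num) x))
      rw [abs_le]
      constructor
      · linarith [h1.1, h2.1]
      · linarith [h1.2, h2.2]
  have I1' : ∫ x in (0)..(2 * Real.pi), A * (3 * D 0 x ^ 2 + D 1 x ^ 2) ≤ 4 * (A * S) := by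
    rw [intervalIntegral.integral_const_mul, intervalIntegral.integral_add ((hq 0).const_mul 3)
      (hq 1), intervalIntegral.integral_const_mul, ← hEn 1, ← hEn 0]
    have h1 := mul_le_mul_of_nonneg_left hE0 hA
    have h2 := mul_le_mul_of_nonneg_left hE1 hA
    linarith
  -- the second integral
  have I2 : |∫ x in (0)..(2 * Real.pi), iteratedDeriv 3 d x * iteratedDeriv 3 (Li g d) x| ≤
      ∫ x in (0)..(2 * Real.pi), A * (18 * D 3 x ^ 2 + 4 * D 1 x ^ 2 + 6 * D 2 x ^ 2 +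
        D 0 x ^ 2) := by
    refine est _ (fun x => G 1 x * D 3 x ^ 2)
      (fun x => G 2 x * D 3 x ^ 2 + 2 * (G 1 x * (D 3 x * D 4 x)))
      (fun x => 5 * (G 2 x * D 3 x ^ 2) + 2 * (G 4 x * (D 1 x * D 3 x)) +
        6 * (G 3 x * (D 2 x * D 3 x)) + 2 * (G 3 x * (D 0 x * D 3 x)) +
        6 * (G 2 x * (D 1 x * D 3 x)) + 6 * (G 1 x * (D 2 x * D 3 x)) +
        2 * (G 0 x * D 3 x ^ 2)) _ ?_ ?_ ?_ ?_ ?_ ?_ ?_
    · intro x
      have h := (hgder 1 x).mul ((hder 3 x).pow 2)
      refine h.congr_deriv ?_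
      norm_num
      ring
    · exact ((cg 2).mul ((c 3).pow 2)).add (continuous_const.mul ((cg 1).mul ((c 3).mul (c 4))))
    · exact ((((((continuous_const.mul ((cg 2).mul ((c 3).pow 2))).add
        (continuous_const.mul ((cg 4).mul ((c 1).mul (c 3))))).add
        (continuous_const.mul ((cg 3).mul ((c 2).mul (c 3))))).add
        (continuous_const.mul ((cg 3).mul ((c 0).mul (c 3))))).add
        (continuous_const.mul ((cg 2).mul ((c 1).mul (c 3))))).add
        (continuous_const.mul ((cg 1).mul ((c 2).mul (c 3))))).add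
        (continuous_const.mul ((cg 0).mul ((c 3).pow 2)))
    · exact continuous_const.mul ((((continuous_const.mul ((c 3).pow 2)).add
        (continuous_const.mul ((c 1).pow 2))).add
        (continuous_const.mul ((c 2).pow 2))).add ((c 0).pow 2))
    · show G 1 (2 * Real.pi) * D 3 (2 * Real.pi) ^ 2 = G 1 0 * D 3 0 ^ 2
      rw [hp 3, hgp 1]
    · intro x
      rw [hLi3, hD 3]
      ring
    · intro x
      have h1 := abs_le.1 (two A (G 2 x) (D 3 x) (hGA 2 (by norm_num) x))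
      have h2 := abs_le.1 (tri A (G 4 x) (D 1 x) (D 3 x) (hGA 4 (by norm_num) x))
      have h3 := abs_le.1 (tri A (G 3 x) (D 2 x) (D 3 x) (hGA 3 (by norm_num) x))
      have h4 := abs_le.1 (tri A (G 3 x) (D 0 x) (D 3 x) (hGA 3 (by norm_num) x))
      have h5 := abs_le.1 (tri A (G 2 x) (D 1 x) (D 3 x) (hGA 2 (by norm_num) x))
      have h6 := abs_le.1 (tri A (G 1 x) (D 2 x) (D 3 x) (hGA 1 (by norm_num) x))
      have h7 := abs_le.1 (two A (G 0 x) (D 3 x) (hGA 0 (by norm_num) x))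
      rw [abs_le]
      constructor
      · linarith [h1.1, h2.1, h3.1, h4.1, h5.1, h6.1, h7.1]
      · linarith [h1.2, h2.2, h3.2, h4.2, h5.2, h6.2, h7.2]
  have I2' : ∫ x in (0)..(2 * Real.pi), A * (18 * D 3 x ^ 2 + 4 * D 1 x ^ 2 + 6 * D 2 x ^ 2 +
      D 0 x ^ 2) ≤ 29 * (A * S) := by
    rw [intervalIntegral.integral_const_mul, intervalIntegral.integral_add
      ((((hq 3).const_mul 18).add ((hq 1).const_mul 4)).add ((hq 2).const_mul 6)) (hq 0),
      intervalIntegral.integral_add (((hq 3).const_mul 18).add ((hq 1).const_mul 4))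
      ((hq 2).const_mul 6), intervalIntegral.integral_add ((hq 3).const_mul 18)
      ((hq 1).const_mul 4), intervalIntegral.integral_const_mul,
      intervalIntegral.integral_const_mul, intervalIntegral.integral_const_mul,
      ← hEn 3, ← hEn 2, ← hEn 1, ← hEn 0]
    have h0 := mul_le_mul_of_nonneg_left hE0 hA
    have h1 := mul_le_mul_of_nonneg_left hE1 hA
    have h2 := mul_le_mul_of_nonneg_left hE2 hA
    have h3 := mul_le_mul_of_nonneg_left hE3 hA
    linarith
  rw [← hS]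
  have h9 : 0 ≤ A * S := mul_nonneg hA hS0
  linarith

end Pool.Agent.Lib.MPb879c5.WQ
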