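import Pool.Agent.Lib.MP_b879c5_an.WQ.Spec
import Pool.Agent.Lib.MP_b879c5_an.WP.ETS

/-!
# MP_b879c5_an, module DNE: the nonlinear terms for small data (adapted from WP/ETS)
-/

set_option autoImplicit false

namespace Pool.Agent.Lib.MPb879c5.WQ

open Set Filter MeasureTheory Topology
open Pool.Agent.Lib.MP_b879c5_an
open Pool.Agent.Lib.MPb879c5.WP
open Pool.Agent.Lib.MPb879c5.WP.ETSM
open scoped ContDiff

theorem specDNE (hSOB : WP.SpecSOB) : SpecDNE := by
  refine ⟨75, by norm_num, ?_⟩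
  intro f hf hsm
  obtain ⟨D, hD, hder, hper, hcont⟩ := derivs f hf
  have hf0 : f = D 0 := by rw [← hD 0, iteratedDeriv_zero]
  have hEn : ∀ k, En k f = ∫ x in (0)..(2 * Real.pi), D k x ^ 2 := by
    intro k
    unfold En
    rw [hD k]
  have hEnn : ∀ k, 0 ≤ En k f := by
    intro k
    rw [hEn k]
    exact intervalIntegral.integral_nonneg (by positivity) (fun x _ => sq_nonneg _)
  obtain ⟨S, hS⟩ : ∃ S, S = En 0 f + En 3 f := ⟨_, rfl⟩
  have hS0 : 0 ≤ S := by
    rw [hS]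
    exact add_nonneg (hEnn 0) (hEnn 3)
  have hS1 : S ≤ 1 := by
    rw [hS]
    exact hsm
  have hM : ∀ j < 3, ∀ x, |D j x| ≤ 5 := by
    intro j hj x
    have h1 := (hSOB f hf j 3 hj).2 x
    rw [hD j, ← hS] at h1
    refine abs_le_of_sq_le_sq (h1.trans ?_) (by norm_num)
    linarith
  have hE1 : En 1 f ≤ S := by
    rw [hS]
    exact (hSOB f hf 1 3 (by norm_num)).1
  have hE2 : En 2 f ≤ S := by
    rw [hS]
    exact (hSOB f hf 2 3 (by norm_num)).1
  have hE0 : En 0 f ≤ S := by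
    rw [hS]
    linarith [hEnn 3]
  have hE3 : En 3 f ≤ S := by
    rw [hS]
    linarith [hEnn 0]
  have hFo : Fo f = fun x => D 3 x + D 1 x ^ 2 + D 0 x ^ 2 := by
    funext x
    unfold Fo
    rw [← iteratedDeriv_one, hD 3, hD 1]
    rw [hf0]
  have hFo3 : iteratedDeriv 3 (Fo f) = fun x => D 6 x + 6 * (D 2 x * D 3 x) + 2 * (D 1 x * D 4 x)
      + 6 * (D 1 x * D 2 x) + 2 * (D 0 x * D 3 x) := by
    have d1 : deriv (fun x => D 3 x + D 1 x ^ 2 + D 0 x ^ 2) =
        fun x => D 4 x + 2 * (D 1 x * D 2 x) + 2 * (D 0 x * D 1 x) := by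
      funext x
      have h := ((hder 3 x).add ((hder 1 x).pow 2)).add ((hder 0 x).pow 2)
      refine HasDerivAt.deriv (h.congr_deriv ?_)
      norm_num
      ring
    have d2 : deriv (fun x => D 4 x + 2 * (D 1 x * D 2 x) + 2 * (D 0 x * D 1 x)) =
        fun x => D 5 x + 2 * (D 2 x * D 2 x + D 1 x * D 3 x) +
          2 * (D 1 x * D 1 x + D 0 x * D 2 x) := by
      funext x
      have h := ((hder 4 x).add (((hder 1 x).mul (hder 2 x)).const_mul 2)).add
        (((hder 0 x).mul (hder 1 x)).const_mul 2)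
      exact HasDerivAt.deriv (h.congr_deriv rfl)
    have d3 : deriv (fun x => D 5 x + 2 * (D 2 x * D 2 x + D 1 x * D 3 x) +
          2 * (D 1 x * D 1 x + D 0 x * D 2 x)) =
        fun x => D 6 x + 6 * (D 2 x * D 3 x) + 2 * (D 1 x * D 4 x)
      + 6 * (D 1 x * D 2 x) + 2 * (D 0 x * D 3 x) := by
      funext x
      have h := ((hder 5 x).add ((((hder 2 x).mul (hder 2 x)).add
        ((hder 1 x).mul (hder 3 x))).const_mul 2)).add
        ((((hder 1 x).mul (hder 1 x)).add ((hder 0 x).mul (hder 2 x))).const_mul 2)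
      refine HasDerivAt.deriv (h.congr_deriv ?_)
      ring
    rw [hFo, iteratedDeriv_succ, iteratedDeriv_succ, iteratedDeriv_one, d1, d2, d3]
  have c := hcont
  have hp : ∀ k, D k (2 * Real.pi) = D k 0 := by
    intro k
    have h := hper k 0
    rwa [zero_add] at h
  have hq : ∀ k, IntervalIntegrable (fun x => D k x ^ 2) volume 0 (2 * Real.pi) := fun k =>
    ((c k).pow 2).intervalIntegrable _ _
  -- the first integral
  have I1 : |∫ x in (0)..(2 * Real.pi), f x * Fo f x| ≤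
      ∫ x in (0)..(2 * Real.pi), 5 * (D 1 x ^ 2 + D 0 x ^ 2) := by
    refine est _ (fun x => D 0 x * D 2 x - D 1 x ^ 2 / 2) (fun x => D 0 x * D 3 x)
      (fun x => D 0 x * (D 1 x ^ 2 + D 0 x ^ 2)) _ ?_ ((c 0).mul (c 3))
      ((c 0).mul (((c 1).pow 2).add ((c 0).pow 2)))
      (continuous_const.mul (((c 1).pow 2).add ((c 0).pow 2))) ?_ ?_ ?_
    · intro x
      have h := ((hder 0 x).mul (hder 2 x)).sub (((hder 1 x).pow 2).div_const 2)
      refine h.congr_deriv ?_
      norm_num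
      ring
    · show D 0 (2 * Real.pi) * D 2 (2 * Real.pi) - D 1 (2 * Real.pi) ^ 2 / 2 =
        D 0 0 * D 2 0 - D 1 0 ^ 2 / 2
      rw [hp 0, hp 1, hp 2]
    · intro x
      show f x * Fo f x = D 0 x * D 3 x + D 0 x * (D 1 x ^ 2 + D 0 x ^ 2)
      rw [hFo, ← hf0]
      ring
    · intro x
      show |D 0 x * (D 1 x ^ 2 + D 0 x ^ 2)| ≤ _
      rw [abs_mul, abs_of_nonneg (by positivity : 0 ≤ D 1 x ^ 2 + D 0 x ^ 2)]
      exact mul_le_mul_of_nonneg_right (hM 0 (by norm_num) x) (by positivity)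
  have I1' : ∫ x in (0)..(2 * Real.pi), 5 * (D 1 x ^ 2 + D 0 x ^ 2) ≤ 10 * S := by
    rw [intervalIntegral.integral_const_mul, intervalIntegral.integral_add (hq 1) (hq 0),
      ← hEn 1, ← hEn 0]
    linarith
  -- the second integral
  have I2 : |∫ x in (0)..(2 * Real.pi), iteratedDeriv 3 f x * iteratedDeriv 3 (Fo f) x| ≤
      ∫ x in (0)..(2 * Real.pi), 5 * (10 * D 3 x ^ 2 + 3 * D 2 x ^ 2) := by
    refine est _ (fun x => D 3 x * D 5 x - D 4 x ^ 2 / 2 + D 1 x * D 3 x ^ 2)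
      (fun x => D 3 x * D 6 x + (D 2 x * D 3 x ^ 2 + 2 * (D 1 x * (D 3 x * D 4 x))))
      (fun x => 5 * (D 2 x * D 3 x ^ 2) + 6 * (D 1 x * (D 2 x * D 3 x)) +
        2 * (D 0 x * D 3 x ^ 2)) _ ?_ ?_ ?_ ?_ ?_ ?_ ?_
    · intro x
      have h := (((hder 3 x).mul (hder 5 x)).sub (((hder 4 x).pow 2).div_const 2)).add
        ((hder 1 x).mul ((hder 3 x).pow 2))
      refine h.congr_deriv ?_
      norm_num
      ring
    · exact ((c 3).mul (c 6)).add (((c 2).mul ((c 3).pow 2)).add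
        (continuous_const.mul ((c 1).mul ((c 3).mul (c 4)))))
    · exact ((continuous_const.mul ((c 2).mul ((c 3).pow 2))).add
        (continuous_const.mul ((c 1).mul ((c 2).mul (c 3))))).add
        (continuous_const.mul ((c 0).mul ((c 3).pow 2)))
    · exact continuous_const.mul ((continuous_const.mul ((c 3).pow 2)).add
        (continuous_const.mul ((c 2).pow 2)))
    · show D 3 (2 * Real.pi) * D 5 (2 * Real.pi) - D 4 (2 * Real.pi) ^ 2 / 2 +
        D 1 (2 * Real.pi) * D 3 (2 * Real.pi) ^ 2 = D 3 0 * D 5 0 - D 4 0 ^ 2 / 2 +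
        D 1 0 * D 3 0 ^ 2
      rw [hp 1, hp 3, hp 4, hp 5]
    · intro x
      rw [hFo3, hD 3]
      ring
    · intro x
      have a0 := hM 0 (by norm_num) x
      have a1 := hM 1 (by norm_num) x
      have a2 := hM 2 (by norm_num) x
      have b1 : |D 2 x * D 3 x ^ 2| ≤ 5 * D 3 x ^ 2 := by
        rw [abs_mul, abs_of_nonneg (sq_nonneg (D 3 x))]
        exact mul_le_mul_of_nonneg_right a2 (sq_nonneg _)
      have b2 : |D 0 x * D 3 x ^ 2| ≤ 5 * D 3 x ^ 2 := by
        rw [abs_mul, abs_of_nonneg (sq_nonneg (D 3 x))]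
        exact mul_le_mul_of_nonneg_right a0 (sq_nonneg _)
      have b3 : |D 1 x * (D 2 x * D 3 x)| ≤ 5 * ((D 2 x ^ 2 + D 3 x ^ 2) / 2) := by
        rw [abs_mul]
        refine mul_le_mul a1 ?_ (abs_nonneg _) (by norm_num)
        rw [abs_le]
        constructor
        · nlinarith [sq_nonneg (D 2 x + D 3 x)]
        · nlinarith [sq_nonneg (D 2 x - D 3 x)]
      have t := abs_add_three (5 * (D 2 x * D 3 x ^ 2)) (6 * (D 1 x * (D 2 x * D 3 x)))
        (2 * (D 0 x * D 3 x ^ 2))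
      refine t.trans ?_
      rw [abs_mul 5, abs_mul 6, abs_mul 2, abs_of_pos (by norm_num : (0 : ℝ) < 5),
        abs_of_pos (by norm_num : (0 : ℝ) < 6), abs_of_pos (by norm_num : (0 : ℝ) < 2)]
      linarith
  have I2' : ∫ x in (0)..(2 * Real.pi), 5 * (10 * D 3 x ^ 2 + 3 * D 2 x ^ 2) ≤ 65 * S := by
    rw [intervalIntegral.integral_const_mul, intervalIntegral.integral_add ((hq 3).const_mul 10)
      ((hq 2).const_mul 3),
      intervalIntegral.integral_const_mul, intervalIntegral.integral_const_mul, ← hEn 3, ← hEn 2]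
    linarith
  have hE : E2 f = S := hS.symm
  rw [hE]
  linarith

end Pool.Agent.Lib.MPb879c5.WQ
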