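import Pool.Agent.Lib.MP_b879c5_an.WQ.Spec

/-!
# Module EXP: the exact solution
-/

set_option autoImplicit false

namespace Pool.Agent.Lib.MPb879c5.WQ

open Set Filter MeasureTheory Topology
open Pool.Agent.Lib.MP_b879c5_an
open Pool.Agent.Lib.MPb879c5.WP
open scoped ContDiff

namespace EXPM

/-- the amplitude -/
noncomputable def am (T₀ h t : ℝ) : ℝ := 1 / (2 * (T₀ + h - t))

lemma pat_eq (T₀ h t x : ℝ) :
    pat T₀ (t - h) x = am T₀ h t * (1 + Real.cos (x - t + h)) := by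
  unfold pat am
  have e : x - t + h = 2 * ((x - (t - h)) / 2) := by ring
  have e2 : T₀ - (t - h) = T₀ + h - t := by ring
  rw [e, Real.cos_two_mul, e2]
  rw [show (1 : ℝ) + (2 * Real.cos ((x - (t - h)) / 2) ^ 2 - 1) = 2 * Real.cos ((x - (t - h)) / 2) ^ 2 by ring]
  by_cases hd : T₀ + h - t = 0
  · rw [hd]; simp
  · field_simp

lemma sm (T₀ h : ℝ) : Sm (T₀ + h) (fun p => pat T₀ (p.1 - h) p.2) := by
  unfold Sm pat
  refine ContDiffOn.div ?_ ?_ ?_
  · refine ContDiff.contDiffOn ?_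
    fun_prop
  · refine ContDiff.contDiffOn ?_
    fun_prop
  · rintro ⟨t, x⟩ hp
    rw [mem_Om] at hp
    have := hp.2
    change T₀ - (t - h) ≠ 0
    intro h0
    linarith

lemma dcos (t h x : ℝ) : HasDerivAt (fun y : ℝ => Real.cos (y - t + h)) (-Real.sin (x - t + h)) x := by
  have h1 : HasDerivAt (fun y : ℝ => y - t + h) 1 x := ((hasDerivAt_id x).sub_const t).add_const h
  have h2 := h1.cos
  simpa using h2

lemma dsin (t h x : ℝ) : HasDerivAt (fun y : ℝ => Real.sin (y - t + h)) (Real.cos (x - t + h)) x := by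
  have h1 : HasDerivAt (fun y : ℝ => y - t + h) 1 x := ((hasDerivAt_id x).sub_const t).add_const h
  have h2 := h1.sin
  simpa using h2

lemma dcos_t (t h x : ℝ) : HasDerivAt (fun s : ℝ => Real.cos (x - s + h)) (Real.sin (x - t + h)) t := by
  have h1 : HasDerivAt (fun s : ℝ => x - s + h) (-1) t := ((hasDerivAt_id t).const_sub x).add_const h
  have h2 := h1.cos
  simpa using h2

lemma dam (T₀ h t : ℝ) (ht : t < T₀ + h) : HasDerivAt (am T₀ h) (2 * am T₀ h t ^ 2) t := by
  have h1 : HasDerivAt (fun s : ℝ => 2 * (T₀ + h - s)) (2 * (-1)) t :=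
    ((hasDerivAt_id t).const_sub (T₀ + h)).const_mul 2
  have hne : 2 * (T₀ + h - t) ≠ 0 := by
    intro h0
    linarith
  have h2 : HasDerivAt (fun s : ℝ => (2 * (T₀ + h - s))⁻¹) (-(2 * (-1)) / (2 * (T₀ + h - t)) ^ 2) t :=
    h1.inv hne
  have e : (fun s : ℝ => (2 * (T₀ + h - s))⁻¹) = am T₀ h := by
    funext s
    unfold am
    rw [one_div]
  rw [e] at h2
  convert h2 using 1
  unfold am
  field_simp

end EXPM

theorem specEXP : SpecEXP := by
  intro T₀ h hT hh
  have hS := EXPM.sm T₀ h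
  refine ⟨hS, ?_, ?_⟩
  · intro t ht x
    change pat T₀ (t - h) (x + 2 * Real.pi) = pat T₀ (t - h) x
    rw [EXPM.pat_eq, EXPM.pat_eq]
    have e : x + 2 * Real.pi - t + h = (x - t + h) + 2 * Real.pi := by ring
    rw [e, Real.cos_add_two_pi]
  intro t ht x
  have d1 : ∀ y, Dx (fun p : ℝ × ℝ => pat T₀ (p.1 - h) p.2) (t, y) =
      EXPM.am T₀ h t * (-Real.sin (y - t + h)) := by
    intro y
    have h1 := hS.hasDerivAt_x ht y
    have h2 : HasDerivAt (fun z : ℝ => pat T₀ (t - h) z) (EXPM.am T₀ h t * (-Real.sin (y - t + h))) y := by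
      have h3 := ((EXPM.dcos t h y).const_add 1).const_mul (EXPM.am T₀ h t)
      refine h3.congr_of_eventuallyEq (Eventually.of_forall (fun z => ?_))
      exact EXPM.pat_eq T₀ h t z
    exact h1.unique h2
  have d2 : ∀ y, Dx (Dx (fun p : ℝ × ℝ => pat T₀ (p.1 - h) p.2)) (t, y) =
      EXPM.am T₀ h t * (-Real.cos (y - t + h)) := by
    intro y
    have h1 := hS.dx.hasDerivAt_x ht y
    have h2 : HasDerivAt (fun z : ℝ => Dx (fun p : ℝ × ℝ => pat T₀ (p.1 - h) p.2) (t, z))
        (EXPM.am T₀ h t * (-Real.cos (y - t + h))) y := by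
      have h3 := ((EXPM.dsin t h y).neg).const_mul (EXPM.am T₀ h t)
      refine h3.congr_of_eventuallyEq (Eventually.of_forall (fun z => ?_))
      exact d1 z
    exact h1.unique h2
  have d3 : ∀ y, Dx (Dx (Dx (fun p : ℝ × ℝ => pat T₀ (p.1 - h) p.2))) (t, y) =
      EXPM.am T₀ h t * Real.sin (y - t + h) := by
    intro y
    have h1 := hS.dx.dx.hasDerivAt_x ht y
    have h2 : HasDerivAt (fun z : ℝ => Dx (Dx (fun p : ℝ × ℝ => pat T₀ (p.1 - h) p.2)) (t, z))
        (EXPM.am T₀ h t * Real.sin (y - t + h)) y := by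
      have h3 := ((EXPM.dcos t h y).neg).const_mul (EXPM.am T₀ h t)
      rw [neg_neg] at h3
      refine h3.congr_of_eventuallyEq (Eventually.of_forall (fun z => ?_))
      exact d2 z
    exact h1.unique h2
  have dt : Dt (fun p : ℝ × ℝ => pat T₀ (p.1 - h) p.2) (t, x) =
      2 * EXPM.am T₀ h t ^ 2 * (1 + Real.cos (x - t + h)) + EXPM.am T₀ h t * Real.sin (x - t + h) := by
    have h1 := hS.hasDerivAt_t ht x
    have h2 : HasDerivAt (fun s : ℝ => pat T₀ (s - h) x)
        (2 * EXPM.am T₀ h t ^ 2 * (1 + Real.cos (x - t + h)) + EXPM.am T₀ h t * Real.sin (x - t + h)) t := by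
      have h3 := (EXPM.dam T₀ h t ht.2).mul ((EXPM.dcos_t t h x).const_add 1)
      refine h3.congr_of_eventuallyEq (Eventually.of_forall (fun s => ?_))
      exact EXPM.pat_eq T₀ h s x
    exact h1.unique h2
  rw [dt, d3, d1]
  change _ = _ + _ + (pat T₀ (t - h) x) ^ 2
  rw [EXPM.pat_eq]
  have hsc := Real.sin_sq_add_cos_sq (x - t + h)
  linear_combination (-(EXPM.am T₀ h t ^ 2)) * hsc

end Pool.Agent.Lib.MPb879c5.WQ
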