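import Pool.Agent.Lib.MP_b879c5_an.WQ.Spec

/-!
Module GRW: the bootstrap inequality.
-/

set_option autoImplicit false

namespace Pool.Agent.Lib.MPb879c5.WQ

open Set Filter MeasureTheory Topology
open Pool.Agent.Lib.MP_b879c5_an
open Pool.Agent.Lib.MPb879c5.WP
open scoped ContDiff

namespace GRWM

lemma core {y y' : ℝ → ℝ} {a b C : ℝ} (hC : 0 ≤ C) (hd : ∀ t ∈ Icc a b, HasDerivAt y (y' t) t)
    (hy : ∀ t ∈ Icc a b, 0 ≤ y t) (hb : ∀ t ∈ Icc a b, y t ≤ 1 → y' t ≤ C * y t) {c : ℝ}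
    (hc : c ∈ Icc a b) (h1 : ∀ s ∈ Ioo a c, y s ≤ 1) : y c ≤ y a * Real.exp (C * (b - a)) := by
  have hf : ∀ t ∈ Icc a b, HasDerivAt (fun t => y t * Real.exp (-(C * (t - a))))
      (y' t * Real.exp (-(C * (t - a))) + y t * (Real.exp (-(C * (t - a))) * (-C))) t := by
    intro t ht
    have e1 : HasDerivAt (fun t : ℝ => -(C * (t - a))) (-C) t := by
      have e0 : HasDerivAt (fun t : ℝ => -(C * (t - a))) (-(C * 1)) t :=
        (((hasDerivAt_id' t).sub_const a).const_mul C).neg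
      rwa [mul_one] at e0
    exact (hd t ht).mul e1.exp
  have hsub : Icc a c ⊆ Icc a b := Icc_subset_Icc le_rfl hc.2
  have hanti : AntitoneOn (fun t => y t * Real.exp (-(C * (t - a)))) (Icc a c) := by
    refine antitoneOn_of_deriv_nonpos (convex_Icc a c)
      (fun t ht => (hf t (hsub ht)).continuousAt.continuousWithinAt)
      (fun t ht => (hf t (hsub (interior_subset ht))).differentiableAt.differentiableWithinAt) ?_
    intro t ht
    rw [interior_Icc] at ht
    have ht' : t ∈ Icc a b := hsub ⟨ht.1.le, ht.2.le⟩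
    rw [(hf t ht').deriv]
    have e2 := hb t ht' (h1 t ht)
    have e3 := Real.exp_pos (-(C * (t - a)))
    nlinarith
  have h2 : y c * Real.exp (-(C * (c - a))) ≤ y a * Real.exp (-(C * (a - a))) :=
    hanti (left_mem_Icc.mpr hc.1) (right_mem_Icc.mpr hc.1) hc.1
  rw [sub_self, mul_zero, neg_zero, Real.exp_zero, mul_one] at h2
  have hya : 0 ≤ y a := hy a ⟨le_rfl, hc.1.trans hc.2⟩
  have h3 : y c ≤ y a * Real.exp (C * (c - a)) := by
    calc y c = y c * Real.exp (-(C * (c - a))) * Real.exp (C * (c - a)) := by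
          rw [mul_assoc, ← Real.exp_add, neg_add_cancel, Real.exp_zero, mul_one]
      _ ≤ y a * Real.exp (C * (c - a)) :=
          mul_le_mul_of_nonneg_right h2 (Real.exp_pos _).le
  refine h3.trans (mul_le_mul_of_nonneg_left (Real.exp_le_exp.mpr ?_) hya)
  exact mul_le_mul_of_nonneg_left (by linarith [hc.2]) hC

end GRWM

/-- GRW. -/
theorem specGRW : SpecGRW := by
  intro y y' a b C hab hC hd hy hb hsmall
  have hlt : ∀ t ∈ Icc a b, y t < 1 := by
    by_contra hno
    push Not at hno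
    obtain ⟨t1, ht1, hy1⟩ := hno
    have hcont : ContinuousOn y (Icc a b) := fun t ht => (hd t ht).continuousAt.continuousWithinAt
    have hK : IsCompact (Icc a b ∩ y ⁻¹' Ici 1) :=
      IsCompact.of_isClosed_subset isCompact_Icc
        (hcont.preimage_isClosed_of_isClosed isClosed_Icc isClosed_Ici) inter_subset_left
    obtain ⟨c, hc⟩ := hK.exists_isLeast ⟨t1, ht1, hy1⟩
    have hcI : c ∈ Icc a b := hc.1.1
    have hc1 : 1 ≤ y c := hc.1.2
    have h1 : ∀ s ∈ Ioo a c, y s ≤ 1 := by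
      intro s hs
      by_contra hgt
      push Not at hgt
      have : c ≤ s := hc.2 ⟨⟨hs.1.le, hs.2.le.trans hcI.2⟩, hgt.le⟩
      exact absurd hs.2 (not_lt.mpr this)
    have h2 := GRWM.core hC hd hy hb hcI h1
    linarith
  intro t ht
  exact GRWM.core hC hd hy hb ht
    (fun s hs => (hlt s ⟨hs.1.le, hs.2.le.trans ht.2⟩).le)

end Pool.Agent.Lib.MPb879c5.WQ
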