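import Pool.Agent.Lib.MP_b879c5_an.WQ.Spec

/-!
# MP_b879c5_an, part WQ: module LOW (helper40), the blow-up time is at least `b`
-/

set_option autoImplicit false

namespace Pool.Agent.Lib.MPb879c5.WQ

open Set Filter MeasureTheory Topology
open Pool.Agent.Lib.MP_b879c5_an
open Pool.Agent.Lib.MPb879c5.WP
open scoped ContDiff

noncomputable section

namespace LOWM

lemma slice {T : ℝ} {U : ℝ × ℝ → ℝ} (h : Sol T U) {t : ℝ} (ht : t ∈ Ioo 0 T) :
    SP (fun x => U (t, x)) := by
  constructor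
  · have h1 : ContDiffOn ℝ ∞ (fun x : ℝ => U (t, x)) univ := by
      have h2 : ContDiffOn ℝ ∞ (fun x : ℝ => ((t, x) : ℝ × ℝ)) univ :=
        (contDiff_const.prodMk contDiff_id).contDiffOn
      exact h.sm.comp h2 (fun x _ => mem_Om.mpr ht)
    exact contDiffOn_univ.1 h1
  · intro x
    exact h.per t ht x

lemma sp_df {T : ℝ} {U V : ℝ × ℝ → ℝ} (hU : Sol T U) (hV : Sol T V) {t : ℝ} (ht : t ∈ Ioo 0 T) :
    SP (df U V t) := by
  have h1 := slice hU ht
  have h2 := slice hV ht
  constructor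
  · exact h2.sm.sub h1.sm
  · intro x
    change V (t, x + 2 * Real.pi) - U (t, x + 2 * Real.pi) = V (t, x) - U (t, x)
    rw [hU.per t ht x, hV.per t ht x]

lemma En_nonneg (k : ℕ) (f : ℝ → ℝ) : 0 ≤ En k f := by
  unfold En
  exact intervalIntegral.integral_nonneg (by positivity) (fun x _ => sq_nonneg _)

lemma E2_nonneg (f : ℝ → ℝ) : 0 ≤ E2 f :=
  add_nonneg (En_nonneg 0 f) (En_nonneg 3 f)

lemma pat_abs {T₀ b t : ℝ} (hb : b < T₀) (ht : t ≤ b) (x : ℝ) : |pat T₀ t x| ≤ 1 / (T₀ - b) := by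
  unfold pat
  have h1 : 0 < T₀ - t := by linarith
  have h2 : 0 < T₀ - b := by linarith
  rw [abs_div, abs_of_pos h1, abs_of_nonneg (sq_nonneg _)]
  calc Real.cos ((x - t) / 2) ^ 2 / (T₀ - t) ≤ 1 / (T₀ - t) := by
        gcongr
        exact Real.cos_sq_le_one _
    _ ≤ 1 / (T₀ - b) := by
        apply one_div_le_one_div_of_le h2
        linarith

end LOWM

open LOWM

theorem specLOW (hSOB : WP.SpecSOB) (hSHF : WP.SpecSHF) (hBDU : SpecBDU) (hCDP : SpecCDP)
    (hEXP : SpecEXP) : SpecLOW := by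
  intro T₀ b hb0 hbT
  have hT0 : 0 < T₀ := lt_of_le_of_lt hb0 hbT
  obtain ⟨A, hA⟩ := hBDU (T₀ + 1) _ 1 (1 + b) (hEXP T₀ 1 hT0 one_pos) one_pos (by linarith)
  obtain ⟨C₁, hC1, hC⟩ := hCDP A b
  refine ⟨21 * C₁, by positivity, ?_⟩
  intro h T V hh hT hV hbl hsmall
  set e : ℝ := E2 (fun x => V (h, x) - pat T₀ 0 x) with he
  have he0 : 0 ≤ e := E2_nonneg _
  have hC1e : 0 ≤ C₁ * e := mul_nonneg hC1.le he0
  set U : ℝ × ℝ → ℝ := fun p => pat T₀ (p.1 - h) p.2 with hU
  have hUs : Sol (T₀ + h) U := hEXP T₀ h hT0 hh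
  have hdfh : df U V h = fun x => V (h, x) - pat T₀ 0 x := by
    funext x
    change V (h, x) - pat T₀ (h - h) x = _
    rw [sub_self]
  have key : ∀ t, 0 ≤ t → t ≤ b → t < T → ∀ x, (V (t + h, x) - pat T₀ t x) ^ 2 ≤ 21 * C₁ * e := by
    intro t ht0 htb htT x
    have hm1 : min T T₀ + h ≤ T + h := by
      have := min_le_left T T₀
      linarith
    have hm2 : min T T₀ + h ≤ T₀ + h := by
      have := min_le_right T T₀
      linarith
    have htm : t < min T T₀ := lt_min htT (lt_of_le_of_lt htb hbT)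
    have hU' : Sol (min T T₀ + h) U := hSHF.1 _ _ _ hUs hm2
    have hV' : Sol (min T T₀ + h) V := hSHF.1 _ _ _ hV hm1
    have hbd : ∀ s ∈ Icc h (t + h), ∀ k ≤ 5, ∀ y, |iteratedDeriv k (fun z => U (s, z)) y| ≤ A := by
      intro s hs k hk y
      have hs' : s - h + 1 ∈ Icc 1 (1 + b) := by
        constructor
        · linarith [hs.1]
        · linarith [hs.2]
      have h1 := hA (s - h + 1) hs' k hk y
      have h2 : (fun z => U (s, z)) = fun z => (fun p : ℝ × ℝ => pat T₀ (p.1 - 1) p.2) (s - h + 1, z) := by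
        funext z
        change pat T₀ (s - h) z = pat T₀ (s - h + 1 - 1) z
        rw [add_sub_cancel_right]
      rw [h2]
      exact h1
    have hsm : C₁ * E2 (df U V h) < 1 := by
      rw [hdfh, ← he]
      nlinarith
    have h3 := hC (min T T₀ + h) U V h (t + h) hU' hV' hh (by linarith) (by linarith) (by linarith)
      hbd hsm (t + h) ⟨by linarith, le_rfl⟩
    rw [hdfh, ← he] at h3
    have h4 : SP (df U V (t + h)) := sp_df hU' hV' ⟨by linarith, by linarith⟩
    have h5 := (hSOB _ h4 0 3 (by norm_num)).2 x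
    rw [iteratedDeriv_zero] at h5
    have h6 : df U V (t + h) x = V (t + h, x) - pat T₀ t x := by
      change V (t + h, x) - pat T₀ (t + h - h) x = _
      rw [add_sub_cancel_right]
    rw [h6] at h5
    have h7 : En 0 (df U V (t + h)) + En 3 (df U V (t + h)) = E2 (df U V (t + h)) := rfl
    rw [h7] at h5
    linarith
  have hbT' : b < T := by
    by_contra hcon
    push Not at hcon
    obtain ⟨s, hs, hhs, x, hx⟩ := hbl (1 / (T₀ - b) + 1) h (by linarith)
    have h1 := key (s - h) (by linarith) (by linarith [hs.2]) (by linarith [hs.2]) x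
    rw [sub_add_cancel] at h1
    have h2 := pat_abs hbT (show s - h ≤ b by linarith [hs.2]) x
    have h3 : |V (s, x) - pat T₀ (s - h) x| ≤ 1 := by
      rw [← sq_le_one_iff_abs_le_one]
      linarith
    have h4 : |V (s, x)| ≤ |V (s, x) - pat T₀ (s - h) x| + |pat T₀ (s - h) x| := by
      have := abs_add_le (V (s, x) - pat T₀ (s - h) x) (pat T₀ (s - h) x)
      rwa [sub_add_cancel] at this
    linarith
  exact ⟨hbT', fun t ht x => key t ht.1 ht.2 (lt_of_le_of_lt ht.2 hbT') x⟩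

end

end Pool.Agent.Lib.MPb879c5.WQ
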