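import Pool.Agent.Lib.MP_b879c5_an.WQ.Spec

set_option autoImplicit false

namespace Pool.Agent.Lib.MPb879c5.WQ

open Set Filter MeasureTheory Topology
open Pool.Agent.Lib.MP_b879c5_an
open Pool.Agent.Lib.MPb879c5.WP
open scoped ContDiff

noncomputable section

namespace TIMM

lemma cont_pat (T₀ b : ℝ) : Continuous (fun x => pat T₀ b x) := by
  unfold pat
  exact ((Real.continuous_cos.comp ((continuous_id.sub continuous_const).div_const 2)).pow 2).div_const _

lemma integral_pat (T₀ b : ℝ) :
    ∫ x in (0)..(2 * Real.pi), pat T₀ b x = Real.pi / (T₀ - b) := by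
  have hd : ∀ x ∈ uIcc (0 : ℝ) (2 * Real.pi),
      HasDerivAt (fun x => (x / 2 + Real.sin (x - b) / 2) / (T₀ - b)) (pat T₀ b x) x := by
    intro x _
    have h1 : HasDerivAt (fun x : ℝ => x - b) 1 x := (hasDerivAt_id x).sub_const b
    have h2 : HasDerivAt (fun x : ℝ => Real.sin (x - b)) (Real.cos (x - b) * 1) x :=
      h1.sin
    have h3 := (((hasDerivAt_id x).div_const 2).add (h2.div_const 2)).div_const (T₀ - b)
    refine h3.congr_deriv ?_
    unfold pat
    rw [Real.cos_sq]
    have h4 : 2 * ((x - b) / 2) = x - b := by ring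
    rw [h4, mul_one]
  rw [intervalIntegral.integral_eq_sub_of_hasDerivAt hd
    ((cont_pat T₀ b).intervalIntegrable _ _)]
  have h5 : Real.sin (2 * Real.pi - b) = Real.sin (0 - b) := by
    rw [Real.sin_two_pi_sub, zero_sub, Real.sin_neg]
  rw [h5]
  ring

end TIMM

theorem specTIM : SpecTIM := by
  intro T₀ b κ h T V hb hbT₀ hbT hh hS hκ h4
  have ht : b + h ∈ Ioo 0 (T + h) := ⟨by linarith, by linarith⟩
  have h1 := hS.m_upper ht
  have hpos : 0 < T₀ - b := by linarith
  have hpi := Real.pi_pos
  have hc : Continuous (fun x => V (b + h, x)) := hS.sm.continuous_x ht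
  have h2 : ∫ x in (0)..(2 * Real.pi), (pat T₀ b x - κ) ≤ mI V (b + h) := by
    unfold mI
    apply intervalIntegral.integral_mono_on (by positivity)
    · exact ((TIMM.cont_pat T₀ b).sub continuous_const).intervalIntegrable _ _
    · exact hc.intervalIntegrable _ _
    · intro x _
      have := neg_le_of_abs_le (hκ x)
      linarith
  rw [intervalIntegral.integral_sub ((TIMM.cont_pat T₀ b).intervalIntegrable _ _)
    (continuous_const.intervalIntegrable _ _), TIMM.integral_pat,
    intervalIntegral.integral_const, smul_eq_mul, sub_zero] at h2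
  have h3 : Real.pi / (2 * (T₀ - b)) ≤ mI V (b + h) := by
    have h5 : κ ≤ 1 / (4 * (T₀ - b)) := by
      rw [le_div_iff₀ (by positivity)]
      linarith
    have h6 : 2 * Real.pi * κ ≤ 2 * Real.pi * (1 / (4 * (T₀ - b))) :=
      mul_le_mul_of_nonneg_left h5 (by positivity)
    have h7 : 2 * Real.pi * (1 / (4 * (T₀ - b))) = Real.pi / (2 * (T₀ - b)) := by
      field_simp
      norm_num
    have h8 : Real.pi / (T₀ - b) = 2 * (Real.pi / (2 * (T₀ - b))) := by
      field_simp
    linarith
  have h9 : (T - b) * (Real.pi / (2 * (T₀ - b))) ≤ 2 * Real.pi := by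
    have h10 : (T - b) * (Real.pi / (2 * (T₀ - b))) ≤ (T - b) * mI V (b + h) :=
      mul_le_mul_of_nonneg_left h3 (by linarith)
    have h11 : T + h - (b + h) = T - b := by ring
    rw [h11] at h1
    linarith
  have h12 : (T - b) * (Real.pi / (2 * (T₀ - b))) = (T - b) * Real.pi / (2 * (T₀ - b)) := by
    ring
  rw [h12, div_le_iff₀ (by positivity)] at h9
  have h13 : (T - b) * Real.pi ≤ (4 * (T₀ - b)) * Real.pi := by linarith
  have h14 := le_of_mul_le_mul_right h13 hpi
  linarith

end

end Pool.Agent.Lib.MPb879c5.WQ
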