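import Pool.Agent.Lib.MP_b879c5_an.WQ.Fin
import Pool.Agent.Lib.MP_b879c5_an.WQ.BDU
import Pool.Agent.Lib.MP_b879c5_an.WQ.DLE
import Pool.Agent.Lib.MP_b879c5_an.WQ.DNE
import Pool.Agent.Lib.MP_b879c5_an.WQ.DED
import Pool.Agent.Lib.MP_b879c5_an.WQ.GRW
import Pool.Agent.Lib.MP_b879c5_an.WQ.CDP
import Pool.Agent.Lib.MP_b879c5_an.WQ.EXP
import Pool.Agent.Lib.MP_b879c5_an.WQ.LOW
import Pool.Agent.Lib.MP_b879c5_an.WQ.TIM
import Pool.Agent.Lib.MP_b879c5_an.WP.All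

/-!
All modules of the part on data near the pattern put together (MP_b879c5_an, helper42).
-/

set_option autoImplicit false

namespace Pool.Agent.Lib.MPb879c5.WQ

open Set Filter MeasureTheory Topology
open Pool.Agent.Lib.MP_b879c5_an
open Pool.Agent.Lib.MPb879c5.WP
open scoped ContDiff

theorem allCDP : SpecCDP := specCDP (specDLE specSOB) (specDNE specSOB) specDED specGRW

theorem allLOW : SpecLOW := specLOW specSOB specSHF specBDU allCDP specEXP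

theorem near_pattern_all (T₀ η : ℝ) (hT₀ : 0 < T₀) (hη : 0 < η) :
    ∃ ε > 0, ∀ u₀ : ℝ → ℝ, SP u₀ → E2 (fun x => u₀ x - pat T₀ 0 x) < ε →
      0 ≤ (∫ x in (0)..(2 * Real.pi), u₀ x) ∧ (∃ x, u₀ x ≠ 0) ∧ (¬ ∃ κ, ∀ x, u₀ x = κ) ∧
      ∀ (T δ : ℝ) (u : ℝ → ℝ → ℝ), 0 < T → 0 < δ → SolOn (-δ) T u → (∀ x, u 0 x = u₀ x) →
        (∀ M : ℝ, ∃ᶠ t in 𝓝[<] T, ∃ x, M < |u t x|) →
        |T - T₀| < η ∧ ∀ t, 0 ≤ t → t ≤ T₀ - η → ∀ x, |u t x - pat T₀ t x| ≤ η :=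
  near_pattern specSOB allLOW specTIM T₀ η hT₀ hη

end Pool.Agent.Lib.MPb879c5.WQ
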