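import Pool.Agent.Lib.MP_b879c5_an.WQ.Spec
import Pool.Agent.Lib.MP_b879c5_an.WP.Asm

/-!
Data close to the localized pattern (MP_b879c5_an, helper42).
-/

set_option autoImplicit false

namespace Pool.Agent.Lib.MPb879c5.WQ

open Set Filter MeasureTheory Topology
open Pool.Agent.Lib.MP_b879c5_an
open Pool.Agent.Lib.MPb879c5.WP
open scoped ContDiff

namespace FinM

lemma pat_zero (T₀ x : ℝ) : pat T₀ 0 x = (1 + Real.cos x) / (2 * T₀) := by
  unfold pat
  rw [sub_zero, sub_zero, Real.cos_sq]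
  have : 2 * (x / 2) = x := by ring
  rw [this]
  by_cases h : T₀ = 0
  · simp [h]
  · field_simp

lemma pat_SP (T₀ : ℝ) : SP (pat T₀ 0) := by
  have h : pat T₀ 0 = fun x => (1 + Real.cos x) / (2 * T₀) := funext (pat_zero T₀)
  rw [h]
  refine ⟨?_, fun x => ?_⟩
  · exact (contDiff_const.add Real.contDiff_cos).div_const _
  · simp only [Real.cos_add_two_pi]

lemma sub_SP {f g : ℝ → ℝ} (hf : SP f) (hg : SP g) : SP (fun x => f x - g x) :=
  ⟨hf.sm.sub hg.sm, fun x => by rw [hf.per, hg.per]⟩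

lemma E2_nonneg (f : ℝ → ℝ) : 0 ≤ E2 f := by
  unfold E2 En
  have h : ∀ k : ℕ, 0 ≤ ∫ x in (0)..(2 * Real.pi), iteratedDeriv k f x ^ 2 := fun k =>
    intervalIntegral.integral_nonneg (by positivity) fun x _ => sq_nonneg _
  exact add_nonneg (h 0) (h 3)

lemma toBlow {T δ : ℝ} {u : ℝ → ℝ → ℝ} (hT : 0 < T) (hδ : 0 < δ)
    (hunb : ∀ M : ℝ, ∃ᶠ t in 𝓝[<] T, ∃ x, M < |u t x|) :
    Blow (T + δ) (fun p : ℝ × ℝ => u (p.1 + -δ) p.2) := by
  intro M t₀ ht₀
  have h2 : Ioo (max (t₀ - δ) 0) T ∈ 𝓝[<] T := Ioo_mem_nhdsLT (max_lt (by linarith) hT)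
  obtain ⟨s, ⟨x, hx⟩, hs⟩ := ((hunb M).and_eventually h2).exists
  have h3 : t₀ - δ < s := (le_max_left _ _).trans_lt hs.1
  have h4 : 0 < s := (le_max_right _ _).trans_lt hs.1
  refine ⟨s + δ, ⟨by linarith, by linarith [hs.2]⟩, by linarith, x, ?_⟩
  show M < |u (s + δ + -δ) x|
  have : s + δ + -δ = s := by ring
  rwa [this]

end FinM

open FinM

theorem near_pattern (hSOB : SpecSOB) (hLOW : SpecLOW) (hTIM : SpecTIM) (T₀ η : ℝ) (hT₀ : 0 < T₀) (hη : 0 < η) :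
    ∃ ε > 0, ∀ u₀ : ℝ → ℝ, SP u₀ → E2 (fun x => u₀ x - pat T₀ 0 x) < ε →
      0 ≤ (∫ x in (0)..(2 * Real.pi), u₀ x) ∧ (∃ x, u₀ x ≠ 0) ∧ (¬ ∃ κ, ∀ x, u₀ x = κ) ∧
      ∀ (T δ : ℝ) (u : ℝ → ℝ → ℝ), 0 < T → 0 < δ → SolOn (-δ) T u → (∀ x, u 0 x = u₀ x) →
        (∀ M : ℝ, ∃ᶠ t in 𝓝[<] T, ∃ x, M < |u t x|) →
        |T - T₀| < η ∧ ∀ t, 0 ≤ t → t ≤ T₀ - η → ∀ x, |u t x - pat T₀ t x| ≤ η := by
  set θ := min (η / 4) (T₀ / 2) with hθ
  have hθ0 : 0 < θ := lt_min (by linarith) (by linarith)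
  have hθ1 : θ ≤ η / 4 := min_le_left _ _
  have hθ2 : θ ≤ T₀ / 2 := min_le_right _ _
  have hb0 : 0 ≤ T₀ - θ := by linarith
  have hb1 : T₀ - θ < T₀ := by linarith
  obtain ⟨C, hC, hlow⟩ := hLOW T₀ (T₀ - θ) hb0 hb1
  set κ := min η (1 / (4 * θ)) with hκ
  have hκ0 : 0 < κ := lt_min hη (by positivity)
  have hκ1 : κ ≤ η := min_le_left _ _
  have hκ2 : κ ≤ 1 / (4 * θ) := min_le_right _ _
  refine ⟨min (1 / C) (min (κ ^ 2 / C) ((1 / (4 * T₀)) ^ 2 / 20)), by positivity, ?_⟩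
  intro u₀ hu₀ he
  set e := E2 (fun x => u₀ x - pat T₀ 0 x) with hedef
  have he0 : 0 ≤ e := E2_nonneg _
  have he1 : e < 1 / C := he.trans_le (min_le_left _ _)
  have he2 : e < κ ^ 2 / C := he.trans_le ((min_le_right _ _).trans (min_le_left _ _))
  have he3 : e < (1 / (4 * T₀)) ^ 2 / 20 := he.trans_le ((min_le_right _ _).trans (min_le_right _ _))
  have hf : SP (fun x => u₀ x - pat T₀ 0 x) := sub_SP hu₀ (pat_SP T₀)
  have hclose : ∀ x, |u₀ x - pat T₀ 0 x| ≤ 1 / (4 * T₀) := by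
    intro x
    have h1 := (hSOB _ hf 0 3 (by norm_num)).2 x
    rw [iteratedDeriv_zero] at h1
    have h2 : (u₀ x - pat T₀ 0 x) ^ 2 ≤ (1 / (4 * T₀)) ^ 2 := by
      refine h1.trans ?_
      have h3 : En 0 (fun x => u₀ x - pat T₀ 0 x) + En 3 (fun x => u₀ x - pat T₀ 0 x) = e := rfl
      rw [h3]
      linarith
    exact abs_le_of_sq_le_sq h2 (by positivity)
  have hge : ∀ x, (1 + Real.cos x) / (2 * T₀) - 1 / (4 * T₀) ≤ u₀ x := by
    intro x
    have h1 := (abs_le.1 (hclose x)).1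
    rw [pat_zero] at h1
    linarith
  have hle : ∀ x, u₀ x ≤ (1 + Real.cos x) / (2 * T₀) + 1 / (4 * T₀) := by
    intro x
    have h1 := (abs_le.1 (hclose x)).2
    rw [pat_zero] at h1
    linarith
  have h0 : 3 / (4 * T₀) ≤ u₀ 0 := by
    have h1 := hge 0
    rw [Real.cos_zero] at h1
    have h2 : (1 + 1 : ℝ) / (2 * T₀) - 1 / (4 * T₀) = 3 / (4 * T₀) := by field_simp; norm_num
    linarith
  have hπ : u₀ Real.pi ≤ 1 / (4 * T₀) := by
    have h1 := hle Real.pi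
    rw [Real.cos_pi] at h1
    have h2 : (1 + -1 : ℝ) / (2 * T₀) + 1 / (4 * T₀) = 1 / (4 * T₀) := by norm_num
    linarith
  have hpos : 0 < 1 / (4 * T₀) := by positivity
  have h34 : 3 / (4 * T₀) = 3 * (1 / (4 * T₀)) := by ring
  refine ⟨?_, ⟨0, by intro h; linarith⟩, ?_, ?_⟩
  · have h1 : (∫ x in (0)..(2 * Real.pi), ((1 + Real.cos x) / (2 * T₀) - 1 / (4 * T₀)))
        ≤ ∫ x in (0)..(2 * Real.pi), u₀ x := by
      refine intervalIntegral.integral_mono_on (by positivity) ?_ (hu₀.sm.continuous.intervalIntegrable _ _)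
        fun x _ => hge x
      exact (((continuous_const.add Real.continuous_cos).div_const _).sub continuous_const).intervalIntegrable _ _
    have h2 : (∫ x in (0)..(2 * Real.pi), ((1 + Real.cos x) / (2 * T₀) - 1 / (4 * T₀))) = Real.pi / (2 * T₀) := by
      rw [intervalIntegral.integral_sub, intervalIntegral.integral_div, intervalIntegral.integral_add,
        integral_cos, intervalIntegral.integral_const, intervalIntegral.integral_const]
      · simp only [Real.sin_two_pi, Real.sin_zero, sub_zero, smul_eq_mul, mul_one, add_zero]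
        field_simp
        ring
      · exact intervalIntegrable_const
      · exact Real.continuous_cos.intervalIntegrable _ _
      · exact ((continuous_const.add Real.continuous_cos).div_const _).intervalIntegrable _ _
      · exact intervalIntegrable_const
    have h3 : 0 ≤ Real.pi / (2 * T₀) := by positivity
    linarith
  · rintro ⟨c, hc⟩
    rw [hc 0] at h0
    rw [hc Real.pi] at hπ
    linarith
  · intro T δ u hT hδ hu hu0 hunb
    have hSol : Sol (T + δ) (fun p : ℝ × ℝ => u (p.1 + -δ) p.2) := by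
      have h1 := AsmM.shift (h := -δ) hu
      have e1 : -δ - -δ = 0 := by ring
      have e2 : T - -δ = T + δ := by ring
      rw [e1, e2] at h1
      exact AsmM.toSol0 h1
    have hBlow := toBlow hT hδ hunb
    have hinit : (fun x => (fun p : ℝ × ℝ => u (p.1 + -δ) p.2) (δ, x) - pat T₀ 0 x)
        = fun x => u₀ x - pat T₀ 0 x := by
      funext x
      show u (δ + -δ) x - pat T₀ 0 x = u₀ x - pat T₀ 0 x
      have : δ + -δ = 0 := by ring
      rw [this, hu0]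
    have hl := hlow δ T _ hδ hT hSol hBlow (by
      rw [hinit, ← hedef, mul_comm]
      exact (lt_div_iff₀ hC).1 he1)
    rw [hinit, ← hedef] at hl
    obtain ⟨hbT, hcl⟩ := hl
    have hCe : C * e ≤ κ ^ 2 := by
      have := ((lt_div_iff₀ hC).1 he2).le
      linarith
    have hcl2 : ∀ t ∈ Icc 0 (T₀ - θ), ∀ x, |u t x - pat T₀ t x| ≤ κ := by
      intro t ht x
      have h1 : (u (t + δ + -δ) x - pat T₀ t x) ^ 2 ≤ C * e := hcl t ht x
      have h2 : t + δ + -δ = t := by ring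
      rw [h2] at h1
      exact abs_le_of_sq_le_sq (h1.trans hCe) hκ0.le
    have h4 : 4 * κ * (T₀ - (T₀ - θ)) ≤ 1 := by
      have h5 : T₀ - (T₀ - θ) = θ := by ring
      rw [h5]
      have h6 := (le_div_iff₀ (by positivity : (0 : ℝ) < 4 * θ)).1 hκ2
      linarith
    have h5 := hTIM T₀ (T₀ - θ) κ δ T _ hb0 hb1 hbT hδ hSol (fun x => by
      have h6 := hcl2 (T₀ - θ) ⟨hb0, le_rfl⟩ x
      show |u (T₀ - θ + δ + -δ) x - pat T₀ (T₀ - θ) x| ≤ κ
      have h7 : T₀ - θ + δ + -δ = T₀ - θ := by ring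
      rwa [h7]) h4
    refine ⟨?_, fun t ht0 ht1 x => (hcl2 t ⟨ht0, by linarith⟩ x).trans hκ1⟩
    rw [abs_lt]
    constructor <;> linarith

end Pool.Agent.Lib.MPb879c5.WQ
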