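import Pool.Agent.Lib.MP_b879c5_an.WP.SpecG

/-!
# Continuous dependence near the localized pattern (MP_b879c5_an): specification (captain helper42)

AIM. For smooth `2π`-periodic initial values close in `H³` to `cos²(x/2)/T₀` the maximal solution blows up at a finite time `T` close to `T₀` and
stays close to `cos²((x-t)/2)/(T₀-t)` for `0 ≤ t ≤ T₀ - η`. (Existence, uniqueness, finite time: landed, folder `WP`.)

Conventions: module `XXX` is the file `Pool/Agent/Lib/MP_b879c5_an/WQ/XXX.lean`, imports only `Pool.Agent.Lib.MP_b879c5_an.WQ.Spec` (a landed module of the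
folder `WP` may be imported in addition, for instance `WP.GEN` for `GENM.sm_iter`, `GENM.parts`, ..) and proves `theorem specXXX (hYYY : SpecYYY) .. : SpecXXX` (the
modules named after USES, in this order; `WP.SpecSOB`, `WP.SpecETS`, `WP.SpecSHF` are those of `WP`, theorems `WP.specSOB`, `WP.specSHF`) in the namespace
`Pool.Agent.Lib.MPb879c5.WQ`, own lemmas in a namespace `XXXM`.
-/

set_option autoImplicit false

namespace Pool.Agent.Lib.MPb879c5.WQ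

open Set Filter MeasureTheory Topology
open Pool.Agent.Lib.MP_b879c5_an
open Pool.Agent.Lib.MPb879c5.WP
open scoped ContDiff

noncomputable section

/-- The linearisation: `Fo (g + d) = Fo g + Fo d + Li g d`. -/
def Li (g d : ℝ → ℝ) (x : ℝ) : ℝ := 2 * deriv g x * deriv d x + 2 * g x * d x

/-- `∫ f² + ∫ (f''')²`. -/
def E2 (f : ℝ → ℝ) : ℝ := En 0 f + En 3 f

/-- The difference of two functions of time and space. -/
def df (U V : ℝ × ℝ → ℝ) (t x : ℝ) : ℝ := V (t, x) - U (t, x)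

/-- The exact solution. -/
def pat (T₀ : ℝ) (t x : ℝ) : ℝ := Real.cos ((x - t) / 2) ^ 2 / (T₀ - t)

/-- **BDU** (70 lines, no deps). Bounds on compact time intervals.
PROOF. `iteratedDeriv k (fun y => U (t, y)) = Dx^k U (t, ·)` is continuous on `[a,b] × [0,2π]` (`Sm.dx`, iterated) and periodic in `x`; finitely many `k`. -/
def SpecBDU : Prop :=
  ∀ (T : ℝ) (U : ℝ × ℝ → ℝ) (a b : ℝ), Sol T U → 0 < a → b < T →
    ∃ A, ∀ t ∈ Icc a b, ∀ k ≤ 5, ∀ x, |iteratedDeriv k (fun y => U (t, y)) x| ≤ A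

/-- **DLE** (190 lines), USES SOB. The linear terms.
PROOF. `(2 g' d')''' = 2 g' d'''' + 6 g'' d''' + 6 g''' d'' + 2 g'''' d'` and `∫ d''' 2 g' d'''' = -∫ g'' (d''')²` (parts); `(2 g d)''' = 2 g d''' + 6 g' d'' + 6 g'' d' + 2 g''' d`. Every
other term is `≤ A |∫ d^(i) d^(j)| ≤ A (En i d + En j d)/2` with `i, j ≤ 3`, and `En i d ≤ E2 d` (SOB). The same for `∫ d (2 g' d' + 2 g d)`. `C = 40 |A|` will do. -/
def SpecDLE : Prop :=
  ∀ A : ℝ, ∃ C, 0 ≤ C ∧ ∀ g d : ℝ → ℝ, SP g → SP d → (∀ k ≤ 5, ∀ x, |iteratedDeriv k g x| ≤ A) →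
    |∫ x in (0)..(2 * Real.pi), d x * Li g d x| +
      |∫ x in (0)..(2 * Real.pi), iteratedDeriv 3 d x * iteratedDeriv 3 (Li g d) x| ≤ C * E2 d

/-- **DNE** (120 lines), USES SOB. The nonlinear terms, for small `d`.
PROOF. `S = E2 d ≤ 1`; `|d|, |d'|, |d''| ≤ √(20 S) ≤ 5`, `En 1, En 2 ≤ S` (SOB). `∫ d d''' = 0`, `|∫ d d'²|, |∫ d³| ≤ 5 S`. `∫ d''' d^(6) = 0`, `(d'²)''' = 2 d' d'''' + 6 d'' d'''`,
`∫ d''' (d'²)''' = 5 ∫ d'' d'''² ≤ 25 S`, `(d²)''' = 2 d d''' + 6 d' d''`: `|∫ d''' (d²)'''| ≤ 10 S + 30 S`. (The file `WP/ETS.lean` has this computation.) -/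
def SpecDNE : Prop :=
  ∃ C, 0 ≤ C ∧ ∀ d : ℝ → ℝ, SP d → E2 d ≤ 1 →
    |∫ x in (0)..(2 * Real.pi), d x * Fo d x| +
      |∫ x in (0)..(2 * Real.pi), iteratedDeriv 3 d x * iteratedDeriv 3 (Fo d) x| ≤ C * E2 d

/-- **DED** (150 lines, no deps). The energy identity for the difference.
PROOF. `D = V - U` is smooth and periodic, `iteratedDeriv k (D(t,·)) = Dx^k D (t,·)`, `Dt (Dx^k D) = Dx^k (Dt D)` (`Sm.comm`), `Sm.hasDerivAt_integral` for `(Dx^k D)²`, and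
`Dt D = Fo V - Fo U = Fo D + Li U D` in each time slice (`V = U + D`, the pde). -/
def SpecDED : Prop :=
  ∀ (T : ℝ) (U V : ℝ × ℝ → ℝ), Sol T U → Sol T V → ∀ k : ℕ, ∀ t ∈ Ioo 0 T,
    HasDerivAt (fun s => En k (df U V s))
      (2 * ∫ x in (0)..(2 * Real.pi), iteratedDeriv k (df U V t) x *
        iteratedDeriv k (fun y => Fo (df U V t) y + Li (fun z => U (t, z)) (df U V t) y) x) t

/-- **GRW** (100 lines, no deps). Bootstrap.
PROOF. Let `t* = sup {t ∈ [a,b] : y ≤ 1 on [a,t]}`. On `[a,t*]` the function `exp(-C(t-a)) y(t)` is nonincreasing, so `y(t) ≤ y(a) exp(C(t-a)) < 1`; by continuity `t* = b`. -/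
def SpecGRW : Prop :=
  ∀ (y y' : ℝ → ℝ) (a b C : ℝ), a ≤ b → 0 ≤ C → (∀ t ∈ Icc a b, HasDerivAt y (y' t) t) → (∀ t ∈ Icc a b, 0 ≤ y t) →
    (∀ t ∈ Icc a b, y t ≤ 1 → y' t ≤ C * y t) → y a * Real.exp (C * (b - a)) < 1 →
    ∀ t ∈ Icc a b, y t ≤ y a * Real.exp (C * (b - a))

/-- **CDP** (130 lines), USES DLE DNE DED GRW. Continuous dependence.
PROOF. `y t = E2 (df U V t)`, `y' ≤ 2 (C_DLE + C_DNE) y` when `y ≤ 1` (DED for `k = 0, 3`; `iteratedDeriv 0`, and `iteratedDeriv 3` of a sum of smooth functions; `∫ d (Fo d + Li) = ∫ d Fo d + ∫ d Li`).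
GRW with `C' = 2 (C_DLE + C_DNE)`, result `C = exp(C' |L|)`. -/
def SpecCDP : Prop :=
  ∀ A L : ℝ, ∃ C > 0, ∀ (T : ℝ) (U V : ℝ × ℝ → ℝ) (a b : ℝ), Sol T U → Sol T V → 0 < a → a ≤ b → b < T → b - a ≤ L →
    (∀ t ∈ Icc a b, ∀ k ≤ 5, ∀ x, |iteratedDeriv k (fun y => U (t, y)) x| ≤ A) → C * E2 (df U V a) < 1 →
    ∀ t ∈ Icc a b, E2 (df U V t) ≤ C * E2 (df U V a)

/-- **EXP** (90 lines, no deps). The exact solution.
PROOF. `pat T₀ t x = (1 + cos (x - t)) / (2 (T₀ - t))`, smooth for `t < T₀`, period `2π` in `x`; with `c = 1/(2(T₀ - t))`, `c' = 2c²`: `u_t = 2c² (1 + cos(x-t)) + c sin(x-t)`,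
`u_x = -c sin(x-t)`, `u_xxx = c sin(x-t)`, `u_x² + u² = c² (sin² + 1 + 2cos + cos²) = 2c² (1 + cos)`. `Sol` has the fields `sm`, `per`, `pde` (with `Dt`, `Dx`); or use
`AsmM.toSol0` of `WP/Asm.lean`. -/
def SpecEXP : Prop :=
  ∀ T₀ h : ℝ, 0 < T₀ → 0 < h → Sol (T₀ + h) (fun p => pat T₀ (p.1 - h) p.2)

/-- **LOW** (160 lines), USES SOB SHF BDU CDP EXP. The blow-up time is at least `b`.
PROOF. `A` from BDU for `p ↦ pat T₀ (p.1 - 1) p.2` on `[1, 1 + b]`: bounds for the derivatives of `pat T₀ t` for `t ∈ [0,b]`. `C₁` from CDP for `A` and `L = b`, `C = 21 C₁`. Let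
`U p = pat T₀ (p.1 - h) p.2` (EXP), `e = E2 (V(h,·) - pat T₀ 0)`, `df U V (t + h) = V (t + h, ·) - pat T₀ t`. For `t ∈ [0,b]` with `t < T`: `m = min T T₀`, `U`, `V` are solutions on `(0, m + h)` (SHF (1)), CDP on
`[h, t + h]` gives `E2 (df U V (t + h)) ≤ C₁ e`, so `(V (t + h, x) - pat T₀ t x)² ≤ 20 C₁ e ≤ C e` (SOB, `j = 0`, `k = 3`). If `T ≤ b` then `|V (t + h, x)| ≤ 1/(T₀ - b) + 1` for all `t ∈ [0,T)`: contradiction to
`Blow (T + h) V`. So `b < T`. -/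
def SpecLOW : Prop :=
  ∀ T₀ b : ℝ, 0 ≤ b → b < T₀ → ∃ C > 0, ∀ (h T : ℝ) (V : ℝ × ℝ → ℝ), 0 < h → 0 < T → Sol (T + h) V → Blow (T + h) V →
    C * E2 (fun x => V (h, x) - pat T₀ 0 x) < 1 →
    b < T ∧ ∀ t ∈ Icc 0 b, ∀ x, (V (t + h, x) - pat T₀ t x) ^ 2 ≤ C * E2 (fun x => V (h, x) - pat T₀ 0 x)

/-- **TIM** (80 lines, no deps). Upper bound for the blow-up time.
PROOF. `∫_0^(2π) pat T₀ b = π/(T₀ - b)`, so `mI V (b + h) ≥ π/(T₀ - b) - 2πκ ≥ π/(2(T₀ - b))`; and `mI V (b + h) ≤ 2π/(T - b)` (`Sol.m_upper`). -/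
def SpecTIM : Prop :=
  ∀ (T₀ b κ h T : ℝ) (V : ℝ × ℝ → ℝ), 0 ≤ b → b < T₀ → b < T → 0 < h → Sol (T + h) V →
    (∀ x, |V (b + h, x) - pat T₀ b x| ≤ κ) → 4 * κ * (T₀ - b) ≤ 1 → T ≤ b + 4 * (T₀ - b)

end

end Pool.Agent.Lib.MPb879c5.WQ
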